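import Mathlib

set_option autoImplicit false

/-!
# Comparison of the constants `(1/q)_n / (1/p)_n` and `n ^ (1 - 2/p) (p - 1)`
-/

namespace Pool.Agent.Run7.h767.BA

open Finset

/-- the function `log (1 + t) - log (1 - t)` -/
noncomputable def g (t : ℝ) : ℝ := Real.log (1 + t) - Real.log (1 - t)

theorem g_series {t : ℝ} (h : |t| < 1) :
    HasSum (fun k : ℕ => (2 : ℝ) * (1 / (2 * k + 1)) * t ^ (2 * k + 1)) (g t) :=
  Real.hasSum_log_sub_log_of_abs_lt_one h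

theorem one_sub_pow_le {y : ℝ} (h0 : 0 ≤ y) (h1 : y ≤ 1) (m : ℕ) : 1 - y ^ m ≤ m * (1 - y) := by
  have h := one_add_mul_le_pow (show (-2 : ℝ) ≤ y - 1 by linarith) m
  have e : 1 + (y - 1) = y := by ring
  rw [e] at h
  linarith

theorem g_le {t y : ℝ} (ht0 : 0 ≤ t) (ht1 : t < 1) (h0 : 0 ≤ y) (h1 : y ≤ 1) :
    g (y * t) ≤ y * g t := by
  have hyt : |y * t| < 1 := by
    rw [abs_of_nonneg (by positivity)]
    nlinarith
  have h2 := (g_series (t := t) (by rwa [abs_of_nonneg ht0])).mul_left y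
  refine hasSum_le (fun k => ?_) (g_series hyt) h2
  have h3 : y ^ (2 * k + 1) ≤ y := by
    calc y ^ (2 * k + 1) ≤ y ^ 1 := pow_le_pow_of_le_one h0 h1 (by omega)
      _ = y := pow_one y
  rw [mul_pow]
  have h4 : 0 ≤ (2 : ℝ) * (1 / (2 * k + 1)) * t ^ (2 * k + 1) := by positivity
  nlinarith

theorem le_g {t y : ℝ} (ht0 : 0 ≤ t) (ht1 : t < 1) (h0 : 0 ≤ y) (h1 : y ≤ 1) :
    y * g t - g (y * t) ≤ 2 * (1 - y) * (t ^ 3 / (1 - t ^ 2)) := by
  have hyt : |y * t| < 1 := by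
    rw [abs_of_nonneg (by positivity)]
    nlinarith
  have ht2 : t ^ 2 < 1 := by nlinarith
  have h2 := ((g_series (t := t) (by rwa [abs_of_nonneg ht0])).mul_left y).sub (g_series hyt)
  have h3 : HasSum (fun k : ℕ => 2 * (1 - y) * (t * ((t ^ 2) ^ k - if k = 0 then 1 else 0)))
      (2 * (1 - y) * (t * ((1 - t ^ 2)⁻¹ - 1))) := by
    refine HasSum.mul_left _ (HasSum.mul_left _ ((hasSum_geometric_of_lt_one (by positivity)
      ht2).sub ?_))
    exact hasSum_ite_eq 0 1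
  have e : 2 * (1 - y) * (t * ((1 - t ^ 2)⁻¹ - 1)) = 2 * (1 - y) * (t ^ 3 / (1 - t ^ 2)) := by
    have : (1 - t ^ 2) ≠ 0 := by linarith
    field_simp
    ring
  rw [← e]
  refine hasSum_le (fun k => ?_) h2 h3
  rcases Nat.eq_zero_or_pos k with rfl | hk
  · have e0 : y * ((2 : ℝ) * (1 / (2 * ((0 : ℕ) : ℝ) + 1)) * t ^ (2 * 0 + 1))
        - 2 * (1 / (2 * ((0 : ℕ) : ℝ) + 1)) * (y * t) ^ (2 * 0 + 1) = 0 := by
      norm_num
      ring
    rw [e0]
    simp
  · rw [if_neg hk.ne', sub_zero]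
    have hk1 : (1 : ℝ) ≤ k := by exact_mod_cast hk
    have h4 : y - y ^ (2 * k + 1) ≤ 2 * k * (1 - y) := by
      have h5 := one_sub_pow_le h0 h1 (2 * k)
      push_cast at h5
      have h6 : y - y ^ (2 * k + 1) = y * (1 - y ^ (2 * k)) := by ring
      have h7 : 0 ≤ 1 - y ^ (2 * k) := by
        have := pow_le_one₀ (n := 2 * k) h0 h1
        linarith
      rw [h6]
      nlinarith
    have h8 : (0 : ℝ) ≤ t ^ (2 * k + 1) := by positivity
    have h9 : t * (t ^ 2) ^ k = t ^ (2 * k + 1) := by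
      rw [← pow_mul, pow_succ, mul_comm]
    have h10 : (2 : ℝ) * (1 / (2 * k + 1)) * (2 * k) ≤ 2 := by
      rw [mul_assoc, one_div, inv_mul_eq_div]
      have : (2 * (k : ℝ)) / (2 * k + 1) ≤ 1 := by
        rw [div_le_one (by positivity)]; linarith
      linarith
    rw [h9]
    calc y * (2 * (1 / (2 * (k : ℝ) + 1)) * t ^ (2 * k + 1))
          - 2 * (1 / (2 * (k : ℝ) + 1)) * (y * t) ^ (2 * k + 1)
        = 2 * (1 / (2 * (k : ℝ) + 1)) * (y - y ^ (2 * k + 1)) * t ^ (2 * k + 1) := by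
          rw [mul_pow]; ring
      _ ≤ 2 * (1 / (2 * (k : ℝ) + 1)) * (2 * k * (1 - y)) * t ^ (2 * k + 1) := by gcongr
      _ = (2 * (1 / (2 * (k : ℝ) + 1)) * (2 * k)) * ((1 - y) * t ^ (2 * k + 1)) := by ring
      _ ≤ 2 * ((1 - y) * t ^ (2 * k + 1)) := by
          refine mul_le_mul_of_nonneg_right h10 (mul_nonneg (by linarith) h8)
      _ = 2 * (1 - y) * t ^ (2 * k + 1) := by ring

/-- `log ((j + 1 - x) / (j + x))` in terms of `g` -/
theorem log_term {j x : ℝ} (hj : 0 ≤ j) (hx0 : 0 < x) (hx : x ≤ 1 / 2) :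
    Real.log ((j + 1 - x) / (j + x)) = g ((1 - 2 * x) * (1 / (2 * j + 1))) := by
  unfold g
  have hs : (0 : ℝ) < 2 * j + 1 := by linarith
  have e1 : 1 + (1 - 2 * x) * (1 / (2 * j + 1)) = (2 / (2 * j + 1)) * (j + 1 - x) := by
    field_simp; ring
  have e2 : 1 - (1 - 2 * x) * (1 / (2 * j + 1)) = (2 / (2 * j + 1)) * (j + x) := by
    field_simp; ring
  have h1 : (0 : ℝ) < 2 / (2 * j + 1) := by positivity
  have h2 : 0 < j + 1 - x := by linarith
  have h3 : 0 < j + x := by linarith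
  rw [e1, e2, Real.log_mul h1.ne' h2.ne', Real.log_mul h1.ne' h3.ne',
    Real.log_div h2.ne' h3.ne']
  ring

theorem log_ratio {j : ℝ} (hj : 0 < j) : Real.log ((j + 1) / j) = g (1 / (2 * j + 1)) := by
  unfold g
  have hs : (0 : ℝ) < 2 * j + 1 := by linarith
  have e1 : 1 + 1 / (2 * j + 1) = (2 / (2 * j + 1)) * (j + 1) := by field_simp; ring
  have e2 : 1 - 1 / (2 * j + 1) = (2 / (2 * j + 1)) * j := by field_simp; ring
  have h1 : (0 : ℝ) < 2 / (2 * j + 1) := by positivity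
  rw [e1, e2, Real.log_mul h1.ne' (by linarith), Real.log_mul h1.ne' hj.ne',
    Real.log_div (by linarith) hj.ne']
  ring

/-- one factor, upper bound -/
theorem term_le {j x : ℝ} (hj : 0 < j) (hx0 : 0 < x) (hx : x ≤ 1 / 2) :
    Real.log ((j + 1 - x) / (j + x)) ≤ (1 - 2 * x) * Real.log ((j + 1) / j) := by
  rw [log_term hj.le hx0 hx, log_ratio hj]
  have h1 : 0 ≤ 1 / (2 * j + 1) := by positivity
  have h2 : 1 / (2 * j + 1) < 1 := by
    rw [div_lt_one (by linarith)]; linarith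
  exact g_le h1 h2 (by linarith) (by linarith)

/-- one factor, lower bound -/
theorem le_term {j x : ℝ} (hj : 0 < j) (hx0 : 0 < x) (hx : x ≤ 1 / 2) :
    (1 - 2 * x) * Real.log ((j + 1) / j) - x * (1 / (j * (j + 1) * (2 * j + 1)))
      ≤ Real.log ((j + 1 - x) / (j + x)) := by
  rw [log_term hj.le hx0 hx, log_ratio hj]
  have h1 : 0 ≤ 1 / (2 * j + 1) := by positivity
  have h2 : 1 / (2 * j + 1) < 1 := by
    rw [div_lt_one (by linarith)]; linarith
  have h3 := le_g h1 h2 (show 0 ≤ 1 - 2 * x by linarith) (show 1 - 2 * x ≤ 1 by linarith)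
  have e : 2 * (1 - (1 - 2 * x)) * ((1 / (2 * j + 1)) ^ 3 / (1 - (1 / (2 * j + 1)) ^ 2))
      = x * (1 / (j * (j + 1) * (2 * j + 1))) := by
    have hs : (2 * j + 1) ≠ 0 := by linarith
    have h4 : 1 - (1 / (2 * j + 1)) ^ 2 = 4 * j * (j + 1) / (2 * j + 1) ^ 2 := by
      field_simp; ring
    rw [h4]
    field_simp
    ring
  rw [e] at h3
  linarith

/-- the constant of the Pochhammer form, as a product -/
noncomputable def C (n : ℕ) (p : ℝ) : ℝ :=
  ∏ j ∈ range n, (((j : ℝ) + 1 - 1 / p) / ((j : ℝ) + 1 / p))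

theorem C_pos {p : ℝ} (hp : 2 ≤ p) (n : ℕ) : 0 < C n p := by
  unfold C
  refine prod_pos fun j _ => ?_
  have h1 : 1 / p ≤ 1 / 2 := by gcongr
  have h2 : (0 : ℝ) < 1 / p := by positivity
  have h3 : (0 : ℝ) ≤ j := Nat.cast_nonneg j
  apply div_pos <;> linarith

/-- upper and lower bounds for the logarithm -/
theorem log_C {p : ℝ} (hp : 2 ≤ p) (n : ℕ) :
    Real.log (C (n + 1) p) ≤ Real.log (p - 1) + (1 - 2 / p) * Real.log (n + 1) ∧
    Real.log (p - 1) + (1 - 2 / p) * Real.log (n + 1) - (1 / p) * (1 / 3 * (1 - 1 / (n + 1)))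
      ≤ Real.log (C (n + 1) p) := by
  have hx : 1 / p ≤ 1 / 2 := by gcongr
  have hx0 : (0 : ℝ) < 1 / p := by positivity
  have hp0 : (0 : ℝ) < p := by linarith
  induction n with
  | zero =>
    have e : C (0 + 1) p = p - 1 := by
      unfold C
      rw [zero_add, prod_range_one]
      push_cast
      field_simp
      ring
    rw [e]
    norm_num
  | succ n ih =>
    have hn : (0 : ℝ) < (n : ℝ) + 1 := by positivity
    have e : C (n + 1 + 1) p
        = C (n + 1) p * ((((n + 1 : ℕ) : ℝ) + 1 - 1 / p) / (((n + 1 : ℕ) : ℝ) + 1 / p)) := by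
      unfold C
      rw [prod_range_succ]
    have hfac : 0 < (((n + 1 : ℕ) : ℝ) + 1 - 1 / p) / (((n + 1 : ℕ) : ℝ) + 1 / p) := by
      push_cast
      apply div_pos <;> linarith
    rw [e, Real.log_mul (C_pos hp _).ne' hfac.ne']
    push_cast
    have h1 := term_le (j := (n : ℝ) + 1) hn hx0 hx
    have h2 := le_term (j := (n : ℝ) + 1) hn hx0 hx
    have e3 : Real.log (((n : ℝ) + 1 + 1) / ((n : ℝ) + 1))
        = Real.log ((n : ℝ) + 1 + 1) - Real.log ((n : ℝ) + 1) :=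
      Real.log_div (by linarith) hn.ne'
    rw [e3] at h1 h2
    have e4 : 2 / p = 2 * (1 / p) := by ring
    rw [e4] at ih ⊢
    constructor
    · nlinarith [ih.1]
    · have h5 : 1 / (((n : ℝ) + 1) * ((n : ℝ) + 1 + 1) * (2 * ((n : ℝ) + 1) + 1))
          ≤ 1 / 3 * (1 / ((n : ℝ) + 1) - 1 / ((n : ℝ) + 1 + 1)) := by
        have e6 : 1 / 3 * (1 / ((n : ℝ) + 1) - 1 / ((n : ℝ) + 1 + 1))
            = 1 / (((n : ℝ) + 1) * ((n : ℝ) + 1 + 1) * 3) := by
          field_simp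
          ring
        rw [e6]
        have h0 : (0 : ℝ) ≤ n := Nat.cast_nonneg n
        gcongr
        linarith
      have h6 := mul_le_mul_of_nonneg_left h5 hx0.le
      nlinarith [ih.2]

/-- comparison of the constants -/
theorem compare {n : ℕ} (hn : 1 ≤ n) {p : ℝ} (hp : 2 ≤ p) :
    (1 - 1 / (3 * p)) * ((n : ℝ) ^ (1 - 2 / p) * (p - 1)) ≤ C n p ∧
    C n p ≤ (n : ℝ) ^ (1 - 2 / p) * (p - 1) := by
  obtain ⟨m, rfl⟩ : ∃ m, n = m + 1 := ⟨n - 1, by omega⟩
  have hp0 : (0 : ℝ) < p := by linarith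
  have hp1 : (0 : ℝ) < p - 1 := by linarith
  have hn0 : (0 : ℝ) < ((m + 1 : ℕ) : ℝ) := by positivity
  have hpow : (0 : ℝ) < ((m + 1 : ℕ) : ℝ) ^ (1 - 2 / p) := Real.rpow_pos_of_pos hn0 _
  have hB : 0 < ((m + 1 : ℕ) : ℝ) ^ (1 - 2 / p) * (p - 1) := by positivity
  have hlogB : Real.log (((m + 1 : ℕ) : ℝ) ^ (1 - 2 / p) * (p - 1))
      = Real.log (p - 1) + (1 - 2 / p) * Real.log (m + 1) := by
    rw [Real.log_mul hpow.ne' hp1.ne', Real.log_rpow hn0]
    push_cast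
    ring
  have h := log_C hp m
  have hC := C_pos hp (m + 1)
  constructor
  · have h1 : Real.log (((m + 1 : ℕ) : ℝ) ^ (1 - 2 / p) * (p - 1)) - 1 / (3 * p)
        ≤ Real.log (C (m + 1) p) := by
      rw [hlogB]
      have h2 : (1 / p) * (1 / 3 * (1 - 1 / ((m : ℝ) + 1))) ≤ 1 / (3 * p) := by
        have h3 : (0 : ℝ) ≤ 1 / ((m : ℝ) + 1) := by positivity
        have h4 : 1 / (3 * p) = (1 / p) * (1 / 3) := by field_simp
        rw [h4]
        have h5 : (0 : ℝ) < 1 / p := by positivity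
        nlinarith
      linarith [h.2]
    have h2 : ((m + 1 : ℕ) : ℝ) ^ (1 - 2 / p) * (p - 1) * Real.exp (-(1 / (3 * p)))
        ≤ C (m + 1) p := by
      rw [← Real.exp_log hB, ← Real.exp_add, ← Real.exp_log hC]
      exact Real.exp_le_exp.2 (by linarith)
    have h3 : 1 - 1 / (3 * p) ≤ Real.exp (-(1 / (3 * p))) := by
      have := Real.add_one_le_exp (-(1 / (3 * p)))
      linarith
    calc (1 - 1 / (3 * p)) * (((m + 1 : ℕ) : ℝ) ^ (1 - 2 / p) * (p - 1))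
        ≤ Real.exp (-(1 / (3 * p))) * (((m + 1 : ℕ) : ℝ) ^ (1 - 2 / p) * (p - 1)) := by gcongr
      _ = ((m + 1 : ℕ) : ℝ) ^ (1 - 2 / p) * (p - 1) * Real.exp (-(1 / (3 * p))) := by ring
      _ ≤ _ := h2
  · have h1 : Real.log (C (m + 1) p) ≤ Real.log (((m + 1 : ℕ) : ℝ) ^ (1 - 2 / p) * (p - 1)) := by
      rw [hlogB]
      exact h.1
    exact (Real.log_le_log_iff hC hB).1 h1

end Pool.Agent.Run7.h767.BA
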